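import Pool.Agent.Q96.LS.Defs
import Pool.Agent.Q186.RU.Orb

/-!
# Quasi-projective varieties with orbifold contact
-/

set_option autoImplicit false

namespace Pool.Agent.Q96.OS

open MvPolynomial FF Pool.Agent.W602.GT Pool.Agent.Q271.RC Pool.Agent.Q96.LS Pool.Agent.Q186.RU

/-- All arcs in `Y - D` have orbifold contact, where `Y` is the projective variety with generic
point `b`: for all points `v` of `Y` over a field `L` with a discrete valuation `z`, such that no
`h i` vanishes at `v` and the centre of `z` is in `Y - D`, two of the orders of the functions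
`h i (v)` differ by at least `m`, or all these orders are equal and the order of
`Q (1, h 1 (v) / h 0 (v), …, h n (v) / h 0 (v))` is not one. -/
def OrbOff {N n : ℕ} {K : Type} [Field K] [Algebra ℂ K] (m : ℕ)
    (Q : MvPolynomial (Fin (n + 1)) ℂ) (b : Fin (N + 1) → K)
    (D : Set (MvPolynomial (Fin (N + 1)) ℂ)) (h : Fin (n + 1) → MvPolynomial (Fin (N + 1)) ℂ) :
    Prop :=
  ∀ (L : Type) [Field L] [Algebra ℂ L] (v : Fin (N + 1) → L), IsPoint b v →
    (∀ i, aeval v (h i) ≠ 0) → ∀ z : Place ℂ L, ¬ CentreIn D v z →
    OrbContact m Q (fun i => aeval v (h i)) z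

end Pool.Agent.Q96.OS
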