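import Pool.Agent.Q96.OS.Gen
import Pool.Agent.Q96.OS.Defs

/-!
# Quasi-projective surfaces over an orbifold pair of log general type
-/

set_option autoImplicit false

namespace Pool.Agent.Q96.OS

open MvPolynomial FF Pool.Agent.W603.LV Pool.Agent.W603.PV Pool.Agent.W602.GT Pool.Agent.Q72.NA
open Pool.Agent.Q271.RC Pool.Agent.Q96.LS Pool.Agent.Q186.RU

/-- **Covers with orbifold contact are of log general type.** -/
theorem orb_lgt {N n d : ℕ} {K : Type} [Field K] [Algebra ℂ K] {a : Fin (N + 1) → K}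
    {f : Fin (n + 1) → MvPolynomial (Fin (N + 1)) ℂ} {e : ℕ} {Q : MvPolynomial (Fin (n + 1)) ℂ}
    (hd : 0 < d) (hX : IsOrbPair d a f e Q) :
    ∃ m0 : ℕ, ∀ m, m0 ≤ m → ∀ (N' : ℕ) (K' : Type) [Field K'] [Algebra ℂ K'] [Algebra K K']
      [IsScalarTower ℂ K K'] (b : Fin (N' + 1) → K')
      (g : Fin (N + 1) → MvPolynomial (Fin (N' + 1)) ℂ) (e' : ℕ), IsCover a b g e' →
      ∀ Bd' : Place ℂ K' → Prop,
      (∀ P, ¬ Bd' P → OrbContact m Q (fun i => aeval b (bind₁ g (f i))) P) →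
      LogGeneralType ℂ K' d Bd' := by
  have : Algebra.EssFiniteType ℂ K := ess_of_adjoin hX.gen.2
  obtain ⟨m0, hm0⟩ := Pool.Agent.Y220.OG.t_lgt K n d (fun i => aeval a (f i))
    (aeval (fun i => aeval a (f i) / aeval a (f 0)) Q) hd hX.ne hX.neQ
    (fun z => hX.fin.isAlgebraic z) hX.lgt
  refine ⟨m0, fun m hm N' K' _ _ _ _ b g e' hY Bd' hoff => ?_⟩
  have h1 : Algebra.EssFiniteType ℂ K' := ess_of_adjoin hY.gen.2
  have h2 := hY.alg
  obtain ⟨c, hc, hgc⟩ := hY.map
  have hval : ∀ i, aeval b (bind₁ g (f i)) = c ^ e * algebraMap K K' (aeval a (f i)) := fun i =>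
    gen_comp a b g c hgc (hX.hom i)
  have hfi : ∀ i, algebraMap K K' (aeval a (f i)) ≠ 0 := fun i => (map_ne_zero _).2 (hX.ne i)
  refine hm0 K' Bd' fun P hP => ?_
  have hord : ∀ i, P.ord (aeval b (bind₁ g (f i))) =
      P.ord (c ^ e) + P.ord (algebraMap K K' (aeval a (f i))) := by
    intro i
    rw [hval, P.ord_mul (pow_ne_zero _ hc) (hfi i)]
  rcases hoff P hP with ⟨i, j, h⟩ | ⟨h, hQ⟩
  · right
    refine ⟨j, i, ?_⟩
    rw [hord, hord] at h
    have h1 : (m0 : ℤ) ≤ m := by exact_mod_cast hm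
    linarith
  · left
    refine ⟨fun i => ?_, ?_⟩
    · have h1 := h i
      rw [hord, hord] at h1
      linarith
    · have h3 : (fun i => aeval b (bind₁ g (f i)) / aeval b (bind₁ g (f 0))) =
          fun i => algebraMap K K' (aeval a (f i) / aeval a (f 0)) := by
        funext i
        rw [hval, hval, mul_div_mul_left _ _ (pow_ne_zero _ hc), map_div₀]
      rw [h3, aeval_algebraMap'] at hQ
      exact hQ

/-- the point `v`, of maximal transcendence degree, is a generic point of the cover -/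
theorem cover_of_point {N N' : ℕ} {K K' : Type} [Field K] [Algebra ℂ K] [Field K'] [Algebra ℂ K']
    [Algebra K K'] [IsScalarTower ℂ K K'] {a : Fin (N + 1) → K} {b : Fin (N' + 1) → K'}
    {g : Fin (N + 1) → MvPolynomial (Fin (N' + 1)) ℂ} {e' : ℕ} (hY : IsCover a b g e')
    (L : Type) [Field L] [Algebra ℂ L] (v : Fin (N' + 1) → L) (hvg : IsGeneric v)
    (σ : K' →ₐ[ℂ] L) (l : L) (hl : l ≠ 0) (hvl : ∀ i, v i = l * σ (b i))
    (hσ : Function.Surjective σ) :
    ∃ (_ : Algebra K L) (_ : IsScalarTower ℂ K L), IsCover a v g e' := by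
  obtain ⟨c, hc, hgc⟩ := hY.map
  let alg : Algebra K L := ((σ : K' →+* L).comp (algebraMap K K')).toAlgebra
  have hmap : ∀ z : K, algebraMap K L z = σ (algebraMap K K' z) := fun z => rfl
  have htow : IsScalarTower ℂ K L := IsScalarTower.of_algebraMap_eq fun z => by
    rw [hmap, ← IsScalarTower.algebraMap_apply ℂ K K', σ.commutes]
  have halg := hY.alg
  refine ⟨alg, htow, hvg, hY.hom, ⟨l ^ e' * σ c, mul_ne_zero (pow_ne_zero _ hl)
    ((map_ne_zero σ).2 hc), fun i => ?_⟩, ?_⟩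
  · have h1 : v = fun i => l * (fun i => σ (b i)) i := funext hvl
    rw [h1, hom_scale l _ (hY.hom i), aeval_map_hom, hgc, map_mul, hmap]
    ring
  · constructor
    intro z
    obtain ⟨y, rfl⟩ := hσ z
    obtain ⟨p, hp, hpy⟩ := halg.isAlgebraic y
    refine ⟨p, hp, ?_⟩
    have h2 : Polynomial.aeval (σ y) p = σ (Polynomial.aeval y p) := by
      rw [Polynomial.aeval_def, Polynomial.aeval_def, Polynomial.eval₂_eq_sum_range,
        Polynomial.eval₂_eq_sum_range, map_sum]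
      refine Finset.sum_congr rfl fun i _ => ?_
      rw [map_mul, map_pow, hmap]
    rw [h2, hpy, map_zero]

/-- heights on covers -/
theorem height_cover {N N' : ℕ} {K K' : Type} [Field K] [Algebra ℂ K] [Field K'] [Algebra ℂ K']
    [Algebra K K'] [IsScalarTower ℂ K K'] {a : Fin (N + 1) → K} {b : Fin (N' + 1) → K'}
    {g : Fin (N + 1) → MvPolynomial (Fin (N' + 1)) ℂ} {e' : ℕ} (ha : IsGeneric a)
    (hY : IsCover a b g e') :
    ∃ (H : MvPolynomial (Fin (N' + 1)) ℂ) (E C : ℕ), H.IsHomogeneous E ∧ aeval b H ≠ 0 ∧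
      ∀ (M : Type) [Field M] [Algebra ℂ M] [IsFF ℂ M] (v : Fin (N' + 1) → M),
        PtF (F := ℂ) b v → aeval v H ≠ 0 → (∃ j, v j ≠ 0) ∧ (∃ i, aeval v (g i) ≠ 0) ∧
          pht ℂ v ≤ C * pht ℂ (fun i => aeval v (g i)) := by
  obtain ⟨c, hc, hgc⟩ := hY.map
  have halgK := hY.alg
  refine height_up a b g e' hY.hom c hgc hc ha.1 hY.gen.1
    (fun f => ratF_of_adjoin hY.gen.2 f) fun z => ?_
  have h1 : ∀ y : K, algebraMap K K' y ∈ IntermediateField.adjoin ℂ
      {f : K' | ∃ i j, a j ≠ 0 ∧ f = algebraMap K K' (a i / a j)} := by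
    intro y
    have h2 : y ∈ IntermediateField.adjoin ℂ {g : K | ∃ i j, a j ≠ 0 ∧ g = a i / a j} := by
      rw [ha.2]
      exact IntermediateField.mem_top
    have h3 : IntermediateField.adjoin ℂ {g : K | ∃ i j, a j ≠ 0 ∧ g = a i / a j} ≤
        (IntermediateField.adjoin ℂ
          {f : K' | ∃ i j, a j ≠ 0 ∧ f = algebraMap K K' (a i / a j)}).comap
          (IsScalarTower.toAlgHom ℂ K K') := by
      rw [IntermediateField.adjoin_le_iff]
      rintro _ ⟨i, j, hj, rfl⟩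
      exact IntermediateField.subset_adjoin _ _ ⟨i, j, hj, rfl⟩
    exact h3 h2
  exact isAlg_of_hom ((algebraMap K K').codRestrict _ h1) (fun _ => rfl) (halgK.isAlgebraic z)

/-- **The main theorem.** -/
theorem main {N n d : ℕ} {K : Type} [Field K] [Algebra ℂ K] {a : Fin (N + 1) → K}
    {f : Fin (n + 1) → MvPolynomial (Fin (N + 1)) ℂ} {e : ℕ} {Q : MvPolynomial (Fin (n + 1)) ℂ}
    (hd : 0 < d) (hX : IsOrbPair d a f e Q) :
    ∃ (m A : ℕ) (B : MvPolynomial (Fin (N + 1)) ℂ) (E : ℕ), B.IsHomogeneous E ∧ aeval a B ≠ 0 ∧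
      ∀ (N' : ℕ) (K' : Type) [Field K'] [Algebra ℂ K'] [Algebra K K']
      [IsScalarTower ℂ K K'] (b : Fin (N' + 1) → K')
      (g : Fin (N + 1) → MvPolynomial (Fin (N' + 1)) ℂ) (e' : ℕ), IsCover a b g e' →
      ∀ D : Set (MvPolynomial (Fin (N' + 1)) ℂ), (∀ F ∈ D, ∃ E, F.IsHomogeneous E) →
      OrbOff m Q b D (fun i => bind₁ g (f i)) →
      LogGeneralType ℂ K' d (CentreIn D b) ∧
      (∀ (L : Type) [Field L] [Algebra ℂ L] [IsFF ℂ L] (v : Fin (N' + 1) → L),
        Sub b D (bind₁ g B) v → Nonconst (fun i => aeval v (g i)) →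
        LogGeneralType ℂ L 1 (CentreIn D v) ∧ pht ℂ (fun i => aeval v (g i)) ≤
          A * (canDeg ℂ L + {P : Place ℂ L | CentreIn D v P}.ncard)) ∧
      (d ≤ 2 → ∀ (L : Type) [Field L] [Algebra ℂ L] (v : Fin (N' + 1) → L) (t : ℕ),
        Sub b D (bind₁ g B) v → Nonconst (fun i => aeval v (g i)) → Algebra.trdeg ℂ L = t →
        LogGeneralType ℂ L t (CentreIn D v)) ∧
      ∃ (G : MvPolynomial (Fin (N' + 1)) ℂ) (E' R : ℕ), G.IsHomogeneous E' ∧ aeval b G ≠ 0 ∧
        (∀ (L : Type) [Field L] [Algebra ℂ L] [IsFF ℂ L] (v : Fin (N' + 1) → L), Sub b D G v →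
          LogGeneralType ℂ L 1 (CentreIn D v) ∧
          0 < pht ℂ v ∧ pht ℂ v ≤ R * (canDeg ℂ L + {P : Place ℂ L | CentreIn D v P}.ncard)) ∧
        (d ≤ 2 → StronglyLGT b D G) := by
  obtain ⟨B, E, A, m1, hB, hBa, hmain⟩ := pair_linear hX
  obtain ⟨m2, hm2⟩ := orb_lgt hd hX
  refine ⟨m1 + m2, A, B, E, hB, hBa, fun N' K' _ _ _ _ b g e' hY D hD hoff => ?_⟩
  obtain ⟨c, hc, hgc⟩ := hY.map
  have hval : ∀ i, aeval b (bind₁ g (f i)) = c ^ e * algebraMap K K' (aeval a (f i)) := fun i =>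
    gen_comp a b g c hgc (hX.hom i)
  have hne : ∀ i, aeval b (bind₁ g (f i)) ≠ 0 := fun i => by
    rw [hval]
    exact mul_ne_zero (pow_ne_zero _ hc) ((map_ne_zero _).2 (hX.ne i))
  have hlgt : LogGeneralType ℂ K' d (CentreIn D b) :=
    hm2 (m1 + m2) (by omega) N' K' b g e' hY _ fun P hP =>
      hoff K' b (fun _ _ _ h => h) hne P hP
  -- curves
  have hcurve : ∀ (L : Type) [Field L] [Algebra ℂ L] [IsFF ℂ L] (v : Fin (N' + 1) → L),
      Sub b D (bind₁ g B) v → Nonconst (fun i => aeval v (g i)) →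
      LogGeneralType ℂ L 1 (CentreIn D v) ∧ pht ℂ (fun i => aeval v (g i)) ≤
        A * (canDeg ℂ L + {P : Place ℂ L | CentreIn D v P}.ncard) := by
    intro L _ _ _ v hv hnc
    have hBv : aeval (fun i => aeval v (g i)) B ≠ 0 := by
      rw [← aeval_bind₁]
      exact hv.ne
    have hu0 : ∃ j, aeval v (g j) ≠ 0 := by
      obtain ⟨i, j, hj, -⟩ := hnc
      exact ⟨j, hj⟩
    have hfin := fin_centre v hv.gen.1 D hD hv.off
    have hpt : PtF (F := ℂ) a (fun i => aeval v (g i)) :=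
      pt_comp a b g e' hY.hom c hgc v fun H E hH hHb => hv.point H E hH hHb
    obtain ⟨h1, h2⟩ := hmain (m1 + m2) (by omega) L (fun i => aeval v (g i)) hpt hBv hu0
    have h1' : ∀ i, aeval v (bind₁ g (f i)) ≠ 0 := fun i => by
      rw [aeval_bind₁]
      exact h1 i
    have h3 := h2 hfin.toFinset (fun z hz => by
      have h4 := hoff L v hv.point h1' z (by
        rw [Set.Finite.mem_toFinset] at hz
        exact hz)
      simp only [aeval_bind₁] at h4
      exact h4) hnc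
    have h5 := pht_pos _ hnc
    rw [Set.ncard_eq_toFinset_card _ hfin]
    refine ⟨?_, h3⟩
    have h6 : 0 < canDeg ℂ L + hfin.toFinset.card := by
      by_contra hcon
      rw [not_lt] at hcon
      have h7 := mul_nonpos_of_nonneg_of_nonpos (Int.natCast_nonneg A) hcon
      linarith
    have h8 := lgt_one hfin.toFinset h6
    have h9 : (fun P : Place ℂ L => P ∈ hfin.toFinset) = CentreIn D v := by
      funext P
      rw [Set.Finite.mem_toFinset]
      rfl
    rwa [h9] at h8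
  -- the whole variety
  have hfull : ∀ (L : Type) [Field L] [Algebra ℂ L] (v : Fin (N' + 1) → L), IsPoint b v →
      IsGeneric v → Algebra.trdeg ℂ L = d → LogGeneralType ℂ L d (CentreIn D v) := by
    intro L _ _ v hvp hvg ht
    obtain ⟨-, hiso⟩ := gen_point' hY.gen hlgt.1 L v d hvp hvg ht
    obtain ⟨σ, l, hl, hvl, hσ⟩ := hiso rfl
    obtain ⟨alg, htow, hcov⟩ := cover_of_point hY L v hvg σ l hl hvl hσ
    refine hm2 (m1 + m2) (by omega) N' L v g e' hcov _ fun P hP => ?_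
    refine hoff L v hvp (fun i => ?_) P hP
    have h1 : v = fun i => l * (fun i => σ (b i)) i := funext hvl
    rw [h1, hom_scale l _ (hom_bind g e' hY.hom (hX.hom i)), aeval_map_hom]
    exact mul_ne_zero (pow_ne_zero _ hl) ((map_ne_zero σ).2 (hne i))
  refine ⟨hlgt, hcurve, ?_, ?_⟩
  · intro hd2 L _ _ v t hv hnc ht
    have ht0 : 0 < t := by
      by_contra h0
      have h1 : t = 0 := by omega
      rw [h1, Nat.cast_zero] at ht
      obtain ⟨i, j, -, h2⟩ := hnc
      exact h2 ((trdeg_eq_zero_iff.1 ht).isAlgebraic _)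
    obtain ⟨htd, -⟩ := gen_point' hY.gen hlgt.1 L v t hv.point hv.gen ht
    by_cases ht1 : t = 1
    · subst ht1
      have hff : IsFF ℂ L := ⟨ess_of_adjoin hv.gen.2, by rw [ht]; simp⟩
      exact (hcurve L v hv hnc).1
    · obtain rfl : t = d := by omega
      exact hfull L v hv.point hv.gen ht
  · obtain ⟨H, E', C, hH, hHb, hup⟩ := height_cover hX.gen hY
    have hoffG : ∀ (L : Type) [Field L] [Algebra ℂ L] [IsFF ℂ L] (v : Fin (N' + 1) → L),
        Sub b D (H * bind₁ g B) v → LogGeneralType ℂ L 1 (CentreIn D v) ∧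
        0 < pht ℂ v ∧ pht ℂ v ≤ (C * A : ℕ) *
          (canDeg ℂ L + {P : Place ℂ L | CentreIn D v P}.ncard) := by
      intro L _ _ _ v hv
      have hne := hv.ne
      rw [map_mul] at hne
      have hnc : Nonconst v := nonconst_of hv.gen (by
        rw [IsFF.trdeg (k := ℂ) (K := L)]
        simp)
      have hpv := pht_pos v hnc
      obtain ⟨-, hu0, hht⟩ := hup L v (fun H E hH hHb => hv.point H E hH hHb)
        (left_ne_zero_of_mul hne)
      have hpu : 0 < pht ℂ (fun i => aeval v (g i)) := by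
        by_contra hcon
        rw [not_lt] at hcon
        have h7 := mul_nonpos_of_nonneg_of_nonpos (Int.natCast_nonneg C) hcon
        linarith
      have hncu := nonconst_of_pht hu0 hpu
      obtain ⟨h1, h2⟩ := hcurve L v ⟨hv.point, hv.gen, hv.off, right_ne_zero_of_mul hne⟩ hncu
      refine ⟨h1, hpv, (hht.trans (mul_le_mul_of_nonneg_left h2
        (Int.natCast_nonneg _))).trans (le_of_eq ?_)⟩
      push_cast
      ring
    refine ⟨H * bind₁ g B, E' + e' * E, C * A, hH.mul (hom_bind g e' hY.hom hB), ?_, hoffG, ?_⟩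
    · rw [map_mul, gen_comp a b g c hgc hB]
      exact mul_ne_zero hHb (mul_ne_zero (pow_ne_zero _ hc) ((map_ne_zero _).2 hBa))
    · intro hd2 L _ _ v t hv ht ht0
      obtain ⟨htd, -⟩ := gen_point' hY.gen hlgt.1 L v t hv.point hv.gen ht
      by_cases ht1 : t = 1
      · subst ht1
        have hff : IsFF ℂ L := ⟨ess_of_adjoin hv.gen.2, by rw [ht]; simp⟩
        exact (hoffG L v hv).1
      · obtain rfl : t = d := by omega
        exact hfull L v hv.point hv.gen ht

end Pool.Agent.Q96.OS
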