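import Pool.Agent.Q96.LS.Main
import Pool.Agent.Q186.RU.Main

/-!
Points of maximal transcendence degree are generic points (without exceptions), constant points.
-/

set_option autoImplicit false

namespace Pool.Agent.Q96.OS

open MvPolynomial FF Pool.Agent.W603.LV Pool.Agent.W603.PV Pool.Agent.W602.GT Pool.Agent.Q72.NA
open Pool.Agent.Q271.RC

/-- the relations between affine coordinates -/
theorem rel_of_point {N : ℕ} {K : Type} [Field K] [Algebra ℂ K] {b : Fin (N + 1) → K}
    {L : Type} [Field L] [Algebra ℂ L] {v : Fin (N + 1) → L} (hv : IsPoint b v) {j : Fin (N + 1)}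
    (hbj : b j ≠ 0) (hvj : v j ≠ 0) (p : MvPolynomial (Fin (N + 1)) ℂ)
    (hp : aeval (fun i => b i / b j) p = 0) : aeval (fun i => v i / v j) p = 0 := by
  classical
  let P : MvPolynomial (Fin (N + 1)) ℂ := ∑ k ∈ Finset.range (p.totalDegree + 1),
    homogeneousComponent k p * X j ^ (p.totalDegree - k)
  have hP : P.IsHomogeneous p.totalDegree := by
    refine IsHomogeneous.sum _ _ _ fun k hk => ?_
    have h1 : k + 1 * (p.totalDegree - k) = p.totalDegree := by
      have := Finset.mem_range.1 hk
      omega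
    rw [← h1]
    have h2 := (homogeneousComponent_isHomogeneous k p).mul
      ((isHomogeneous_X (R := ℂ) j).pow (p.totalDegree - k))
    rw [h1]
    rw [h1] at h2
    exact h2
  have hval : ∀ {M : Type} [Field M] [Algebra ℂ M] (w : Fin (N + 1) → M), w j ≠ 0 →
      aeval w P = w j ^ p.totalDegree * aeval (fun i => w i / w j) p := by
    intro M _ _ w hw
    have h1 : aeval (fun i => w i / w j) p = ∑ k ∈ Finset.range (p.totalDegree + 1),
        aeval (fun i => w i / w j) (homogeneousComponent k p) := by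
      rw [← map_sum, sum_homogeneousComponent]
    rw [h1, Finset.mul_sum]
    simp only [P, map_sum, map_mul, map_pow, aeval_X]
    refine Finset.sum_congr rfl fun k hk => ?_
    have h2 : w = fun i => w j * (w i / w j) := by
      funext i
      field_simp
    have h3 : aeval w (homogeneousComponent k p) =
        w j ^ k * aeval (fun i => w i / w j) (homogeneousComponent k p) := by
      rw [← hom_scale (w j) _ (homogeneousComponent_isHomogeneous k p)]
      exact congrArg (fun z => aeval z (homogeneousComponent k p)) h2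
    rw [h3]
    have h4 : w j ^ p.totalDegree = w j ^ k * w j ^ (p.totalDegree - k) := by
      rw [← pow_add]
      congr 1
      have := Finset.mem_range.1 hk
      omega
    rw [h4]
    ring
  have h1 := hv P _ hP (by rw [hval b hbj, hp, mul_zero])
  rw [hval v hvj] at h1
  exact (mul_eq_zero.1 h1).resolve_left (pow_ne_zero _ hvj)

/-- **Points of maximal transcendence degree.** -/
theorem gen_point' {N : ℕ} {K : Type} [Field K] [Algebra ℂ K] {b : Fin (N + 1) → K}
    (hb : IsGeneric b) {d : ℕ} (hd : Algebra.trdeg ℂ K = d) (L : Type) [Field L] [Algebra ℂ L]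
    (v : Fin (N + 1) → L) (t : ℕ) (hv : IsPoint b v) (hvg : IsGeneric v)
    (ht : Algebra.trdeg ℂ L = t) : t ≤ d ∧
      (t = d → ∃ (σ : K →ₐ[ℂ] L) (l : L), l ≠ 0 ∧ (∀ i, v i = l * σ (b i)) ∧
        Function.Surjective σ) := by
  classical
  obtain ⟨j, hvj⟩ := hvg.1
  have hj : b j ≠ 0 := by
    intro h0
    apply hvj
    have h1 := hv (X j) 1 (isHomogeneous_X _ _) (by rw [aeval_X, h0])
    rwa [aeval_X] at h1
  let F : MvPolynomial (Fin (N + 1)) ℂ →ₐ[ℂ] K := aeval fun i => b i / b j
  let R : Subalgebra ℂ K := F.range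
  have hbR : ∀ i, b i / b j ∈ R := fun i => ⟨X i, by simp [F]⟩
  have hsurj : Function.Surjective F.rangeRestrict := F.rangeRestrict_surjective
  have hker : ∀ p : MvPolynomial (Fin (N + 1)) ℂ, F.rangeRestrict p = 0 →
      aeval (fun i => v i / v j) p = 0 := by
    intro p hp
    refine rel_of_point hv hj hvj p ?_
    have h1 := congrArg Subtype.val hp
    exact h1
  let φ : R →ₐ[ℂ] L := AlgHom.liftOfSurjective F.rangeRestrict hsurj
    (aeval fun i => v i / v j) (fun p hp => by
      rw [RingHom.mem_ker] at hp ⊢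
      exact hker p hp)
  have hφ : ∀ p : MvPolynomial (Fin (N + 1)) ℂ, φ (F.rangeRestrict p) =
      aeval (fun i => v i / v j) p := fun p =>
    AlgHom.liftOfSurjective_apply _ _ _ _ p
  have hφb : ∀ i, φ ⟨b i / b j, hbR i⟩ = v i / v j := by
    intro i
    have h1 := hφ (X i)
    rw [aeval_X] at h1
    rw [← h1]
    congr 1
    apply Subtype.ext
    simp [F]
  have hgen : IntermediateField.adjoin ℂ (Set.range φ) = ⊤ := by
    rw [eq_top_iff, ← Pool.Agent.Q96.LS.adjoin_fixed hvg.2 hvj, IntermediateField.adjoin_le_iff]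
    rintro _ ⟨i, rfl⟩
    refine IntermediateField.subset_adjoin _ _ ⟨⟨b i / b j, hbR i⟩, hφb i⟩
  have hRd : Algebra.trdeg ℂ R ≤ d := by
    rw [← hd]
    exact trdeg_le_of_injective R.val Subtype.val_injective
  obtain ⟨h1, h2⟩ := Pool.Agent.Q96.LS.inj_of_trdeg φ hgen hRd ht
  refine ⟨h1, fun htd => ?_⟩
  have hinj := h2 htd
  have hR' : R = Algebra.adjoin ℂ (Set.range fun i => b i / b j) := by
    rw [Algebra.adjoin_range_eq_range_aeval]
  have hfr : IsFractionRing R K := .of_field _ _ fun z => by
    have hz : z ∈ IntermediateField.adjoin ℂ (Set.range fun i => b i / b j) := by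
      rw [Pool.Agent.Q96.LS.adjoin_fixed hb.2 hj]
      exact IntermediateField.mem_top
    obtain ⟨x, hx, y, hy, e⟩ := IntermediateField.mem_adjoin_iff_div.mp hz
    rw [← hR'] at hx hy
    exact ⟨⟨x, hx⟩, ⟨y, hy⟩, e⟩
  let σ : K →ₐ[ℂ] L := IsFractionRing.liftAlgHom (g := φ) hinj
  have hσ : ∀ r : R, σ (r : K) = φ r := fun r =>
    IsFractionRing.lift_algebraMap hinj r
  have hσb : ∀ i, σ (b i / b j) = v i / v j := by
    intro i
    rw [← hφb i]
    exact hσ ⟨b i / b j, hbR i⟩
  have hσj : σ (b j) ≠ 0 := (map_ne_zero σ).2 hj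
  refine ⟨σ, v j / σ (b j), div_ne_zero hvj hσj, ?_, ?_⟩
  · intro i
    have h3 := hσb i
    rw [map_div₀] at h3
    field_simp
    field_simp at h3
    linear_combination -h3
  · intro z
    have hz : z ∈ IntermediateField.adjoin ℂ (Set.range fun i => v i / v j) := by
      rw [Pool.Agent.Q96.LS.adjoin_fixed hvg.2 hvj]
      exact IntermediateField.mem_top
    have h3 : IntermediateField.adjoin ℂ (Set.range fun i => v i / v j) ≤ σ.fieldRange := by
      rw [IntermediateField.adjoin_le_iff]
      rintro _ ⟨i, rfl⟩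
      exact ⟨b i / b j, hσb i⟩
    exact h3 hz

/-- points of positive height are not constant -/
theorem nonconst_of_pht {N : ℕ} {L : Type} [Field L] [Algebra ℂ L] [IsFF ℂ L]
    {u : Fin (N + 1) → L} (hu : ∃ j, u j ≠ 0) (h : 0 < pht ℂ u) : Nonconst u := by
  by_contra hcon
  unfold Nonconst at hcon
  push Not at hcon
  obtain ⟨j, hj⟩ := hu
  have h1 := pht_le (k := ℂ) u hj
  have h2 : ∑ i, hgt ℂ (u i / u j) = 0 := by
    refine Finset.sum_eq_zero fun i _ => ?_
    have h3 := hcon i j hj
    unfold Transcendental at h3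
    rw [not_not] at h3
    obtain ⟨x, hx⟩ := Pool.Agent.TH152.DS.mem_range_of_alg h3
    unfold hgt
    have h4 : ∀ P : Place ℂ L, max (-P.ord (u i / u j)) 0 = 0 := by
      intro P
      have h5 : P.ord (u i / u j) = 0 := by
        rw [← hx]
        by_cases hx0 : x = 0
        · rw [hx0, map_zero, P.ord_zero]
        · exact P.ord_const hx0
      rw [h5]
      simp
    rw [finsum_congr h4, finsum_zero]
  rw [h2] at h1
  exact absurd h (not_lt.2 h1)

end Pool.Agent.Q96.OS
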